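import Pool.Agent.H37.CP.Targets

/-!
# KER: the kernel of a linear system with the index gadget has small errors
-/

set_option autoImplicit false

namespace Pool.Agent.H94.CPE

open Finset Pool.Agent.H37.CP
open Pool.Agent.H1.LP (Clause viol Loc Sys supp ip)
open Pool.Agent.H96.KX (psz fac jun PDz)
open Pool.Agent.H91.AV (MomInd rhx bix kap)

/-- the constant -/
theorem ker_const (B a u : ℕ) (w HH : ℝ)
    (hw : w = 1536 / (u : ℝ) ^ 2) :
    ((2 : ℝ) ^ B) ^ (2 * 2) * ((((2 : ℕ) : ℝ) + 1) ^ (2 * 2 * B) *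
      ((((2 : ℕ) : ℝ) * (2 ^ (2 * 2) * 48)) / (u : ℝ) ^ 2) ^ a * (2 * (u : ℝ) ^ 2 * HH) ^ B) =
    2592 ^ B * w ^ a * (HH ^ B * ((u : ℝ) ^ B) ^ 2) := by
  have e1 : (((2 : ℕ) : ℝ) * (2 ^ (2 * 2) * 48)) / (u : ℝ) ^ 2 = w := by
    rw [hw]
    norm_num
  rw [e1]
  have e2 : ((2 : ℝ) ^ B) ^ (2 * 2) = 16 ^ B := by
    rw [← pow_mul, mul_comm B, pow_mul]
    norm_num
  have e3 : (((2 : ℕ) : ℝ) + 1) ^ (2 * 2 * B) = 81 ^ B := by
    rw [pow_mul]
    norm_num
  have e4 : (2592 : ℝ) ^ B = 16 ^ B * 81 ^ B * 2 ^ B := by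
    rw [← mul_pow, ← mul_pow]
    norm_num
  have e5 : ((u : ℝ) ^ B) ^ 2 = ((u : ℝ) ^ 2) ^ B := by
    rw [← pow_mul, ← pow_mul, mul_comm]
  rw [e2, e3, e4, e5, mul_pow, mul_pow]
  ring

/-- the sum of the squares of nonnegative numbers -/
theorem sum_sq_le_sq {ι : Type} (s : Finset ι) (c : ι → ℝ) (hc : ∀ i, 0 ≤ c i) :
    ∑ i ∈ s, c i ^ 2 ≤ (∑ i ∈ s, c i) ^ 2 := by
  rw [sq (∑ i ∈ s, c i), Finset.sum_mul]
  refine Finset.sum_le_sum fun i hi => ?_
  rw [sq]
  exact mul_le_mul_of_nonneg_left (Finset.single_le_sum (fun j _ => hc j) hi) (hc i)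

theorem pf_KER (hM : S_MOMX) (hX : S_MASX) (hBP : Pool.Agent.H91.AV.S_BIP)
    (hBZ : Pool.Agent.H91.AV.S_BIZ) (hPA : Pool.Agent.H96.KX.S_PDA)
    (hPP : Pool.Agent.H96.KX.S_PDP) (hLO : Pool.Agent.H1.LP.S_LOC) : S_KER := by
  classical
  intro U _ _ B R t Ys δ hR ht hU hsupp hδ hconst
  have hfact : Fact (Nat.Prime 2) := ⟨Nat.prime_two⟩
  obtain ⟨S, hS⟩ := hLO 2 B R t (t / 3) Ys (by omega)
  have hrow : ∀ i, Ys.A i ∈ S.La ∧ S.ga (Ys.A i) = Ys.be i := by
    intro i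
    apply hS
    have := hsupp i
    omega
  have hUR : (40 : ℝ) ≤ Fintype.card U := by exact_mod_cast hU
  have hD1 : ∀ z, |PDz S z| ≤ (2 : ℝ) ^ B := by
    intro z
    have := (hPA 2 B _ S).1 z
    push_cast at this
    exact this
  have hcZ : Fintype.card (ZMod 2) = 2 := ZMod.card 2
  have hcond : Fintype.card (ZMod 2) * ((2 : ℝ) ^ (2 * 2) * 48) ≤ (Fintype.card U : ℝ) ^ 2 := by
    rw [hcZ]
    push_cast
    nlinarith
  -- the constant
  set kk : ℝ := ((2 : ℝ) ^ B) ^ (2 * 2) * kap (U → ZMod 2) U (ZMod 2) 2 48 B (t / 3 + 1) with hkk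
  have hkk0 : 0 ≤ kk := by
    rw [hkk]
    unfold kap
    positivity
  have hcY : (Fintype.card (Fin B → U → ZMod 2) : ℝ) = (Fintype.card (U → ZMod 2) : ℝ) ^ B := by
    rw [Fintype.card_fun (α := Fin B), Fintype.card_fin]
    push_cast
    rfl
  have hcX : (Fintype.card (Fin B → U) : ℝ) = (Fintype.card U : ℝ) ^ B := by
    rw [Fintype.card_fun (α := Fin B), Fintype.card_fin]
    push_cast
    rfl
  have hkk1 : kk = 2592 ^ B * (1536 / (Fintype.card U : ℝ) ^ 2) ^ (t / 3 + 1) *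
      ((Fintype.card (Fin B → U → ZMod 2) : ℝ) * (Fintype.card (Fin B → U) : ℝ) ^ 2) := by
    rw [hkk, hcY, hcX]
    unfold kap
    rw [hcZ]
    exact ker_const B (t / 3 + 1) (Fintype.card U) _
      (Fintype.card (U → ZMod 2) : ℝ) rfl
  set YX : ℝ := (Fintype.card (Fin B → U → ZMod 2) : ℝ) * (Fintype.card (Fin B → U) : ℝ) ^ 2
    with hYX
  have hYX0 : 0 ≤ YX := by positivity
  have hkk2 : (R : ℝ) ^ 3 * kk ≤ δ ^ 4 * YX := by
    rw [hkk1]
    have := mul_le_mul_of_nonneg_right hconst hYX0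
    linarith
  have hR1 : (1 : ℝ) ≤ (R : ℝ) ^ 3 := one_le_pow₀ (by exact_mod_cast hR)
  have hkk3 : kk ≤ δ ^ 4 * YX := by
    have := mul_le_mul_of_nonneg_right hR1 hkk0
    linarith
  -- indicator functions
  have hg0 : ∀ (B' : Finset (Fin B → U)) (x : Fin B → U), (0 : ℝ) ≤ if x ∈ B' then 1 else 0 := by
    intro B' x
    split_ifs <;> norm_num
  have hg2 : ∀ B' : Finset (Fin B → U),
      ∑ x : Fin B → U, (if x ∈ B' then (1 : ℝ) else 0) ^ 2 = B'.card := by
    intro B'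
    have : ∀ x : Fin B → U, (if x ∈ B' then (1 : ℝ) else 0) ^ 2 = if x ∈ B' then 1 else 0 := by
      intro x
      split_ifs <;> norm_num
    simp_rw [this]
    rw [Finset.sum_ite_mem, Finset.univ_inter, Finset.sum_const, nsmul_eq_mul, mul_one]
  have hbix : ∀ (B' : Finset (Fin B → U)) (y : Fin B → U → ZMod 2),
      bix (fun (s : U → ZMod 2) (v : U) => s v) (PDz S) (fun x => if x ∈ B' then 1 else 0) y =
        ∑ x ∈ B', PDz S (fun i => y i (x i)) := by
    intro B' y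
    unfold bix
    simp only [ite_mul, one_mul, zero_mul]
    rw [Finset.sum_ite_mem, Finset.univ_inter]
  refine ⟨fun y x => PDz S (fun i => y i (x i)), ?_, ?_⟩
  · intro x
    have h1 := hX U B (PDz S) x
    rw [(hPA 2 B _ S).2] at h1
    push_cast at h1
    exact mul_right_cancel₀ (by positivity) h1
  intro ι lY lX e hVe
  refine ⟨?_, ?_⟩
  · intro B'
    obtain ⟨T, hT0, hT1, hT2⟩ := hBP (U → ZMod 2) U (ZMod 2) (fun s v => s v) 2 48 (by norm_num)
      (by norm_num) (hM U) hcond B (t / 3 + 1) (PDz S) ((2 : ℝ) ^ B) hD1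
      (fun τ hτ => (hPP 2 B _ S τ (by omega)).1) (fun x => if x ∈ B' then 1 else 0) (hg0 B')
    refine ⟨T, hT0, ?_, ?_⟩
    · intro y
      rw [← hbix B' y]
      exact hT1 y
    · rw [hg2 B'] at hT2
      refine hT2.trans ?_
      rw [← hkk]
      exact mul_le_mul_of_nonneg_right hkk3 (by positivity)
  · intro i B' hB'
    have hr : ∀ r : Fin R, ∃ T : (Fin B → U → ZMod 2) → ℝ, (∀ y, 0 ≤ T y) ∧
        (∀ y ∈ lY i, ∑ x ∈ B'.filter (fun x => e i x = r), PDz S (fun j => y j (x j)) ≤ T y) ∧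
        ∑ y, T y ^ 4 ≤ kk * ((B'.filter (fun x => e i x = r)).card : ℝ) ^ 2 := by
      intro r
      obtain ⟨T, hT0, hT1, hT2⟩ := hBZ (U → ZMod 2) U (ZMod 2) (fun s v => s v) 2 48 (by norm_num)
        (by norm_num) (hM U) hcond B (t / 3 + 1) (PDz S) ((2 : ℝ) ^ B)
        (fun z => ip (Ys.A r) z ≠ Ys.be r) hD1
        (fun τ hτ hW => (hPP 2 B _ S τ (by omega)).2 (Ys.A r) (hrow r).1 (fun z hz => by
          rw [(hrow r).2]
          exact hW z hz))
        (fun x => if x ∈ B'.filter (fun x => e i x = r) then 1 else 0) (hg0 _)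
      refine ⟨T, hT0, ?_, ?_⟩
      · intro y hy
        rw [← hbix _ y]
        refine (le_abs_self _).trans (hT1 y ?_)
        intro x hx
        have hx1 : x ∈ B'.filter (fun x => e i x = r) := by
          by_contra hx2
          exact hx (if_neg hx2)
        rw [Finset.mem_filter] at hx1
        have h3 := hVe i y hy x (hB' hx1.1)
        rw [hx1.2] at h3
        exact h3
      · rw [hg2 _, ← hkk] at hT2
        exact hT2
    choose T hT0 hT1 hT2 using hr
    refine ⟨fun y => ∑ r, T r y, fun y => Finset.sum_nonneg fun r _ => hT0 r y, ?_, ?_⟩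
    · intro y hy
      rw [← Finset.sum_fiberwise_of_maps_to (s := B') (t := (univ : Finset (Fin R))) (g := e i)
        (fun x _ => Finset.mem_univ _)]
      exact Finset.sum_le_sum fun r _ => hT1 r y hy
    · have hR0 : (0 : ℝ) < (R : ℝ) ^ 3 := by linarith
      have h1 : ∀ y : Fin B → U → ZMod 2, (∑ r, T r y) ^ 4 ≤ (R : ℝ) ^ 3 * ∑ r, T r y ^ 4 := by
        intro y
        have h2 := pow_sum_div_card_le_sum_pow (s := (univ : Finset (Fin R)))
          (f := fun r => T r y) (fun r _ => hT0 r y) 3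
        rw [Finset.card_univ, Fintype.card_fin, div_le_iff₀ hR0] at h2
        calc (∑ r, T r y) ^ 4 = (∑ r, T r y) ^ (3 + 1) := rfl
          _ ≤ (∑ r, T r y ^ (3 + 1)) * (R : ℝ) ^ 3 := h2
          _ = _ := mul_comm _ _
      have h3 : ∑ r : Fin R, ((B'.filter (fun x => e i x = r)).card : ℝ) ^ 2 ≤
          (B'.card : ℝ) ^ 2 := by
        have h4 := sum_sq_le_sq (univ : Finset (Fin R))
          (fun r => ((B'.filter (fun x => e i x = r)).card : ℝ)) (fun r => Nat.cast_nonneg _)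
        have h5 : ∑ r : Fin R, ((B'.filter (fun x => e i x = r)).card : ℝ) = B'.card := by
          rw [Finset.card_eq_sum_card_fiberwise (s := B') (t := (univ : Finset (Fin R)))
            (f := e i) (fun x _ => Finset.mem_univ _)]
          push_cast
          rfl
        rw [h5] at h4
        exact h4
      calc ∑ y, (∑ r, T r y) ^ 4 ≤ ∑ y, (R : ℝ) ^ 3 * ∑ r, T r y ^ 4 :=
            Finset.sum_le_sum fun y _ => h1 y
        _ = (R : ℝ) ^ 3 * ∑ r, ∑ y, T r y ^ 4 := by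
            rw [← Finset.mul_sum, Finset.sum_comm]
        _ ≤ (R : ℝ) ^ 3 * ∑ r : Fin R, kk * ((B'.filter (fun x => e i x = r)).card : ℝ) ^ 2 :=
            mul_le_mul_of_nonneg_left (Finset.sum_le_sum fun r _ => hT2 r) hR0.le
        _ = (R : ℝ) ^ 3 * kk * ∑ r : Fin R, ((B'.filter (fun x => e i x = r)).card : ℝ) ^ 2 := by
            rw [mul_assoc, Finset.mul_sum (f := fun r =>
              ((B'.filter (fun x => e i x = r)).card : ℝ) ^ 2)]
        _ ≤ (R : ℝ) ^ 3 * kk * (B'.card : ℝ) ^ 2 :=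
            mul_le_mul_of_nonneg_left h3 (mul_nonneg hR0.le hkk0)
        _ ≤ δ ^ 4 * YX * (B'.card : ℝ) ^ 2 :=
            mul_le_mul_of_nonneg_right hkk2 (by positivity)

end Pool.Agent.H94.CPE
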